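import Mathlib

/-!
# Digit sequences: land with masks, digit sums by reduction modulo powers of `W - 1`

`rv W f n = ∑_{k<n} f k W^k`.
-/

set_option autoImplicit false

namespace Pool.Agent.helper69.EMN

/-- value of a digit sequence -/
def rv (W : ℕ) (f : ℕ → ℕ) (n : ℕ) : ℕ := ∑ k ∈ Finset.range n, f k * W ^ k

lemma rv_succ (W : ℕ) (f : ℕ → ℕ) (n : ℕ) : rv W f (n + 1) = rv W f n + f n * W ^ n :=
  Finset.sum_range_succ _ _

lemma rv_zero (W : ℕ) (f : ℕ → ℕ) : rv W f 0 = 0 := rfl

lemma rv_succ' (W : ℕ) (f : ℕ → ℕ) (n : ℕ) :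
    rv W f (n + 1) = f 0 + W * rv W (fun k => f (k + 1)) n := by
  unfold rv
  rw [Finset.sum_range_succ', Finset.mul_sum, add_comm]
  congr 1
  · simp
  · apply Finset.sum_congr rfl
    intro k _
    ring

lemma rv_lt {W : ℕ} {f : ℕ → ℕ} {n : ℕ} (h : ∀ k < n, f k < W) : rv W f n < W ^ n := by
  induction n with
  | zero => simp [rv]
  | succ n ih =>
    have h1 := ih fun k hk => h k (by omega)
    have h2 : f n + 1 ≤ W := h n (by omega)
    have h3 := Nat.mul_le_mul_right (W ^ n) h2
    rw [rv_succ, pow_succ]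
    nlinarith

lemma rv_congr {W : ℕ} {f g : ℕ → ℕ} {n : ℕ} (h : ∀ k < n, f k = g k) : rv W f n = rv W g n :=
  Finset.sum_congr rfl fun k hk => by rw [h k (Finset.mem_range.1 hk)]

/-- digits of a digit sequence -/
lemma dig_rv {W : ℕ} (hW : 0 < W) {f : ℕ → ℕ} {n : ℕ} (h : ∀ k < n, f k < W) {k : ℕ} (hk : k < n) :
    rv W f n / W ^ k % W = f k := by
  induction n generalizing f k with
  | zero => omega
  | succ n ih =>
    rw [rv_succ']
    cases k with
    | zero =>
      rw [pow_zero, Nat.div_one, Nat.add_mul_mod_self_left, Nat.mod_eq_of_lt (h 0 (by omega))]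
    | succ k =>
      rw [pow_succ', ← Nat.div_div_eq_div_mul, Nat.add_mul_div_left _ _ hW,
        Nat.div_eq_of_lt (h 0 (by omega)), zero_add]
      exact ih (fun j hj => h (j + 1) (by omega)) (by omega)

/-- every number is the value of its digits -/
lemma rv_dig {W : ℕ} {n z : ℕ} (h : z < W ^ n) : rv W (fun k => z / W ^ k % W) n = z := by
  induction n generalizing z with
  | zero =>
    rw [pow_zero] at h
    rw [rv_zero]
    omega
  | succ n ih =>
    rw [rv_succ']
    have h1 : z / W < W ^ n := Nat.div_lt_of_lt_mul (by rwa [pow_succ'] at h)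
    have h2 := ih h1
    have h3 : rv W (fun k => z / W ^ (k + 1) % W) n = z / W := by
      refine Eq.trans ?_ h2
      apply rv_congr
      intro k _
      rw [pow_succ', Nat.div_div_eq_div_mul]
    rw [h3, pow_zero, Nat.div_one]
    exact Nat.mod_add_div z W

lemma land_split (k a b c d : ℕ) (ha : a < 2 ^ k) (hc : c < 2 ^ k) :
    (a + b * 2 ^ k) &&& (c + d * 2 ^ k) = (a &&& c) + (b &&& d) * 2 ^ k := by
  have h1 : (a &&& c) < 2 ^ k := Nat.and_lt_two_pow a hc
  apply Nat.eq_of_testBit_eq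
  intro i
  have e : ∀ x y : ℕ, x + y * 2 ^ k = 2 ^ k * y + x := fun x y => by ring
  rw [e a b, e c d, e (a &&& c) (b &&& d), Nat.testBit_and, Nat.testBit_two_pow_mul_add _ ha,
    Nat.testBit_two_pow_mul_add _ hc, Nat.testBit_two_pow_mul_add _ h1]
  split_ifs <;> simp [Nat.testBit_and]

/-- `land` acts digit by digit -/
lemma land_rv (w : ℕ) {f g : ℕ → ℕ} {n : ℕ} (hf : ∀ k < n, f k < 2 ^ w) (hg : ∀ k < n, g k < 2 ^ w) :
    rv (2 ^ w) f n &&& rv (2 ^ w) g n = rv (2 ^ w) (fun k => f k &&& g k) n := by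
  induction n with
  | zero => simp [rv]
  | succ n ih =>
    have h1 := rv_lt (W := 2 ^ w) (f := f) (n := n) fun k hk => hf k (by omega)
    have h2 := rv_lt (W := 2 ^ w) (f := g) (n := n) fun k hk => hg k (by omega)
    rw [rv_succ, rv_succ, rv_succ]
    rw [← pow_mul] at h1 h2 ⊢
    rw [land_split _ _ _ _ _ h1 h2, ih (fun k hk => hf k (by omega)) (fun k hk => hg k (by omega))]

/-- reduction modulo `W - 1` -/
lemma rv_mod (W : ℕ) (f : ℕ → ℕ) (n : ℕ) :
    rv (W + 1) f n % W = (∑ k ∈ Finset.range n, f k) % W := by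
  unfold rv
  have h : ∀ k ∈ Finset.range n, f k * (W + 1) ^ k ≡ f k [MOD W] := by
    intro k _
    have h1 : (W + 1) ^ k ≡ 1 ^ k [MOD W] := Nat.ModEq.pow k (by
      show (W + 1) % W = 1 % W
      simp)
    rw [one_pow] at h1
    simpa using h1.mul_left (f k)
  induction n with
  | zero => simp
  | succ n ih =>
    rw [Finset.sum_range_succ, Finset.sum_range_succ]
    have h1 := ih fun k hk => h k (by
      rw [Finset.mem_range] at hk ⊢
      omega)
    have h2 := h n (by simp)
    exact Nat.ModEq.add h1 h2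

/-- reduction modulo powers of `W - 1`: binomial weights -/
lemma rv_modEq (W j : ℕ) (f : ℕ → ℕ) (n : ℕ) :
    rv (W + 1) f n ≡ ∑ i ∈ Finset.range j, (∑ k ∈ Finset.range n, f k * k.choose i) * W ^ i [MOD W ^ j] := by
  have h : ∀ k, (W + 1) ^ k ≡ ∑ i ∈ Finset.range j, k.choose i * W ^ i [MOD W ^ j] := by
    intro k
    rw [add_pow]
    simp only [one_pow, mul_one, Nat.cast_id]
    have e1 : ∀ i, i ∉ Finset.range (k + 1) → W ^ i * k.choose i = 0 := by
      intro i hi
      rw [Finset.mem_range, not_lt] at hi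
      rw [Nat.choose_eq_zero_of_lt (by omega), mul_zero]
    have e2 : ∑ i ∈ Finset.range (k + 1), W ^ i * k.choose i =
        ∑ i ∈ Finset.range (max (k + 1) j), W ^ i * k.choose i := by
      apply Finset.sum_subset
      · intro i hi
        rw [Finset.mem_range] at hi ⊢
        omega
      · intro i _ hi
        exact e1 i hi
    rw [e2]
    have e3 : ∑ i ∈ Finset.range (max (k + 1) j), W ^ i * k.choose i =
        ∑ i ∈ Finset.range j, W ^ i * k.choose i +
          ∑ i ∈ Finset.Ico j (max (k + 1) j), W ^ i * k.choose i := by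
      rw [Finset.range_eq_Ico, Finset.range_eq_Ico,
        Finset.sum_Ico_consecutive _ (Nat.zero_le _) (le_max_right _ _)]
    rw [e3]
    have e4 : ∑ i ∈ Finset.Ico j (max (k + 1) j), W ^ i * k.choose i ≡ 0 [MOD W ^ j] := by
      rw [Nat.modEq_zero_iff_dvd]
      apply Finset.dvd_sum
      intro i hi
      exact Dvd.dvd.mul_right (pow_dvd_pow _ (Finset.mem_Ico.1 hi).1) _
    have e5 := Nat.ModEq.add_left (∑ i ∈ Finset.range j, W ^ i * k.choose i) e4
    rw [add_zero] at e5
    refine e5.trans ?_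
    refine congrArg (· % W ^ j) ?_
    apply Finset.sum_congr rfl
    intro i _
    ring
  induction n with
  | zero =>
    simp [rv]
    rfl
  | succ n ih =>
    rw [rv_succ]
    have h1 := (h n).mul_left (f n)
    refine (ih.add h1).trans ?_
    refine congrArg (· % W ^ j) ?_
    rw [Finset.mul_sum, ← Finset.sum_add_distrib]
    apply Finset.sum_congr rfl
    intro i _
    rw [Finset.sum_range_succ]
    ring

/-- one digit with offset: positive part by `land` with the sign mask -/
lemma dig_pos {s : ℕ} {c : ℤ} (h1 : -2 ^ s ≤ c) (h2 : c < 2 ^ s) :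
    (c + 2 ^ s).toNat &&& ((c + 2 ^ s).toNat / 2 ^ s * (2 ^ s - 1)) = c.toNat := by
  have hp : (0 : ℤ) < 2 ^ s := by positivity
  rcases le_or_gt 0 c with hc | hc
  · obtain ⟨n, rfl⟩ := Int.eq_ofNat_of_zero_le hc
    have h3 : ((n : ℤ) + 2 ^ s).toNat = n + 2 ^ s * 1 := by
      have : ((n : ℤ) + 2 ^ s) = ((n + 2 ^ s * 1 : ℕ) : ℤ) := by push_cast; ring
      rw [this, Int.toNat_natCast]
    have h4 : n < 2 ^ s := by
      exact_mod_cast h2
    rw [h3, Nat.add_mul_div_left _ _ (Nat.two_pow_pos s), Nat.div_eq_of_lt h4, zero_add, one_mul,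
      Nat.and_two_pow_sub_one_eq_mod, Nat.add_mul_mod_self_left, Nat.mod_eq_of_lt h4,
      Int.toNat_natCast]
  · have h3 : (c + 2 ^ s).toNat < 2 ^ s := by
      have : ((c + 2 ^ s).toNat : ℤ) < ((2 ^ s : ℕ) : ℤ) := by
        rw [Int.toNat_of_nonneg (by linarith)]
        push_cast
        linarith
      exact_mod_cast this
    rw [Nat.div_eq_of_lt h3, zero_mul, Nat.and_zero, Int.toNat_of_nonpos hc.le]

end Pool.Agent.helper69.EMN
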